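import Pool.Agent.H53.GM.Targets2

/-!
`MP_6ab439_lc`, forbidden coloured patterns: row SWI (the switch).
-/

set_option autoImplicit false
set_option linter.unusedVariables false

namespace Pool.Agent.H40.GM

open Pool.Agent.H68.BP Pool.Agent.H58.SF Pool.Agent.H53.GC Pool.Agent.H53.GR Pool.Agent.H53.GM
open Classical

section

variable {X 𝓛 : Type} {N k : ℕ} {R : 𝓛 → (So N k → X) → Prop} {I : Finset (Fin k)}

theorem fmI_pr {J : Type} (i : J) : FmI R I J (fun _ w => w i) :=
  ⟨fun _ _ hp => hp.1 i, fun _ _ => rfl⟩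

theorem fmI_sub {J J' : Type} (s : J → J') {F : So N k → (J → X) → X} (hF : FmI R I J F) :
    FmI R I J' (fun e w => F e (fun i => w (s i))) :=
  ⟨fun l p hp => hF.fam l (fun i => p (s i)) ⟨fun i => hp.1 (s i), fun e he i i' =>
    hp.2 e he (s i) (s i')⟩, fun e t => hF.idem e t⟩

theorem iot_sub {l₀ : 𝓛} {ι : (J : Type) → [Finite J] → [Nonempty J] →
    (So N k → (J → X) → X) → J} (hι : Iot R l₀ I ι) {J J' : Type} [Finite J] [Nonempty J]
    [Finite J'] [Nonempty J'] (s : J → J') {F : So N k → (J → X) → X} (hF : FmI R I J F) :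
    ι J' (fun e w => F e (fun i => w (s i))) = s (ι J F) :=
  (hι.comp J J' F (fun i e w => w (s i)) hF fun i => fmI_pr (s i)).trans (hι.pr J' _)

end

theorem pf_SWI (hPIN : Pool.Agent.H53.GM.T_PIN) : Pool.Agent.H53.GM.T_SWI := by
  intro X 𝓛 _ N k R l₀ rd I ι e₀ hB hι hsub hloc
  obtain ⟨n, b, hb, hread⟩ := hloc
  obtain ⟨F, hF, hFι, hFe⟩ := hPIN X 𝓛 N k R l₀ rd I ι hB hι 1
  set f := F 0 with hf
  set g := F 1 with hg
  -- two different values
  obtain ⟨i, j, hij⟩ : ∃ i j : Fin (n + 2), b i e₀ ≠ b j e₀ := by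
    by_contra hcon
    push Not at hcon
    have h1 := hread (fun _ w => w 0) (fun _ w => w 1) (fmI_pr 0) (fmI_pr 1) (hcon 0 1)
    rw [hι.pr, hι.pr] at h1
    exact absurd h1 (Fin.zero_ne_one)
  have hne : i ≠ j := fun h => hij (by rw [h])
  -- the switch
  let q : So N k → (Fin 2 → X) → X := fun e w =>
    if e₀.1 ⊆ e.1 then
      if rd e₀ e (w 0) = b i e₀ ∧ rd e₀ e (w 1) = b j e₀ then f e w else g e w
    else f e w
  have hq : FmI R I (Fin 2) q := by
    refine ⟨fun l p hp => ?_, fun e t => ?_⟩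
    · have hp0 : VT R l₀ I p := ⟨fun c => hB.base l _ (hp.1 c), hp.2⟩
      by_cases hC : p 0 e₀ = b i e₀ ∧ p 1 e₀ = b j e₀
      · have h1 : (fun e => q e (fun c => p c e)) = fun e => f e (fun c => p c e) := by
          funext e
          change (if e₀.1 ⊆ e.1 then
            if rd e₀ e (p 0 e) = b i e₀ ∧ rd e₀ e (p 1 e) = b j e₀ then f e (fun c => p c e)
              else g e (fun c => p c e) else f e (fun c => p c e)) = _
          by_cases he : e₀.1 ⊆ e.1
          · rw [if_pos he, ← hB.read _ (hp0.1 0) e₀ e he, ← hB.read _ (hp0.1 1) e₀ e he, if_pos hC]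
          · rw [if_neg he]
        rw [h1]
        exact (hF 0).fam l p hp
      · have h1 : (fun e => q e (fun c => p c e)) = fun e => g e (fun c => p c e) := by
          funext e
          change (if e₀.1 ⊆ e.1 then
            if rd e₀ e (p 0 e) = b i e₀ ∧ rd e₀ e (p 1 e) = b j e₀ then f e (fun c => p c e)
              else g e (fun c => p c e) else f e (fun c => p c e)) = _
          by_cases he : e₀.1 ⊆ e.1
          · rw [if_pos he, ← hB.read _ (hp0.1 0) e₀ e he, ← hB.read _ (hp0.1 1) e₀ e he, if_neg hC]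
          · rw [if_neg he]
            exact hFe e (fun hl => he (hsub e hl)) 0 1 p hp0
        rw [h1]
        exact (hF 1).fam l p hp
    · change (if e₀.1 ⊆ e.1 then
        if rd e₀ e t = b i e₀ ∧ rd e₀ e t = b j e₀ then f e (fun _ => t) else g e (fun _ => t)
          else f e (fun _ => t)) = t
      have h1 : f e (fun _ => t) = t := (hF 0).idem e t
      have h2 : g e (fun _ => t) = t := (hF 1).idem e t
      rw [h1, h2]
      simp
  have hr : ∀ c, rd e₀ e₀ (b c e₀) = b c e₀ := fun c =>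
    (hB.read _ (hb.1 c) e₀ e₀ (Finset.Subset.refl _)).symm
  -- the first order
  have hA : ι (Fin 2) q = 0 := by
    have h1 := hread (fun e w => q e (fun c => w ((![i, j] : Fin 2 → Fin (n + 2)) c)))
      (fun e w => f e (fun c => w ((![i, j] : Fin 2 → Fin (n + 2)) c)))
      (fmI_sub _ hq) (fmI_sub _ (hF 0)) (by
        change (if e₀.1 ⊆ e₀.1 then
          if rd e₀ e₀ (b i e₀) = b i e₀ ∧ rd e₀ e₀ (b j e₀) = b j e₀ then _ else _ else _) = _
        rw [if_pos (Finset.Subset.refl _), if_pos ⟨hr i, hr j⟩])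
    rw [iot_sub hι _ hq, iot_sub hι _ (hF 0), hFι 0] at h1
    rcases Fin.exists_fin_two.1 ⟨ι (Fin 2) q, rfl⟩ with h2 | h2
    · exact h2
    · rw [h2] at h1
      exact absurd h1.symm hne
  -- the second order
  have h1 := hread (fun e w => q e (fun c => w ((![j, i] : Fin 2 → Fin (n + 2)) c)))
    (fun e w => g e (fun c => w ((![j, i] : Fin 2 → Fin (n + 2)) c)))
    (fmI_sub _ hq) (fmI_sub _ (hF 1)) (by
      change (if e₀.1 ⊆ e₀.1 then
        if rd e₀ e₀ (b j e₀) = b i e₀ ∧ rd e₀ e₀ (b i e₀) = b j e₀ then _ else _ else _) = _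
      rw [if_pos (Finset.Subset.refl _), if_neg]
      rintro ⟨h3, -⟩
      rw [hr j] at h3
      exact hij h3.symm)
  rw [iot_sub hι _ hq, iot_sub hι _ (hF 1), hFι 1, hA] at h1
  exact hne h1.symm

end Pool.Agent.H40.GM
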